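import Mathlib

/-! # Finite product probability: independence, a Chernoff type bound, one marked coordinate -/

set_option autoImplicit false

namespace Pool.Agent.Univ637

open Finset

section Prob

variable {ι A : Type*} [Fintype ι] [DecidableEq ι] [Fintype A] [DecidableEq A]

/-- The average of `F` over all functions `ι → A`. -/
noncomputable def av (F : (ι → A) → ℝ) : ℝ := (∑ g, F g) / (Fintype.card (ι → A) : ℝ)

/-- Swapping two functions off `S`. -/
def swapOff (S : Finset ι) : (ι → A) × (ι → A) ≃ (ι → A) × (ι → A) where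
  toFun p := (S.piecewise p.1 p.2, S.piecewise p.2 p.1)
  invFun p := (S.piecewise p.1 p.2, S.piecewise p.2 p.1)
  left_inv p := by
    ext i <;> by_cases h : i ∈ S <;> simp [h]
  right_inv p := by
    ext i <;> by_cases h : i ∈ S <;> simp [h]

omit [DecidableEq A] in
lemma card_pos' [Nonempty A] : (0:ℝ) < Fintype.card (ι → A) := by
  exact_mod_cast Fintype.card_pos

lemma av_mul [Nonempty A] (S : Finset ι) (F G : (ι → A) → ℝ)
    (hF : ∀ g g' : ι → A, (∀ i ∈ S, g i = g' i) → F g = F g')
    (hG : ∀ g g' : ι → A, (∀ i, i ∉ S → g i = g' i) → G g = G g') :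
    av (fun g => F g * G g) = av F * av G := by
  have hpos : (0:ℝ) < Fintype.card (ι → A) := card_pos'
  have key : (∑ g, F g) * (∑ g, G g) = (Fintype.card (ι → A) : ℝ) * ∑ g, F g * G g := by
    rw [Finset.sum_mul_sum]
    have h1 : ∑ i, ∑ j, F i * G j
        = ∑ p : (ι → A) × (ι → A), F (swapOff S p).1 * G (swapOff S p).1 := by
      rw [Fintype.sum_prod_type]
      refine Finset.sum_congr rfl fun i _ => Finset.sum_congr rfl fun j _ => ?_
      congr 1
      · refine hF _ _ fun x hx => ?_
        simp [swapOff, hx]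
      · refine hG _ _ fun x hx => ?_
        simp [swapOff, hx]
    rw [h1, Equiv.sum_comp (swapOff S) (fun p : (ι → A) × (ι → A) => F p.1 * G p.1),
      Fintype.sum_prod_type]
    simp only [Finset.sum_const, Finset.card_univ, nsmul_eq_mul]
    rw [Finset.mul_sum]
  unfold av
  rw [div_mul_div_comm, key]
  field_simp

lemma av_one [Nonempty A] : av (fun _ : ι → A => (1:ℝ)) = 1 := by
  have hpos : (0:ℝ) < Fintype.card (ι → A) := card_pos'
  unfold av
  simp only [Finset.sum_const, Finset.card_univ, nsmul_eq_mul, mul_one]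
  exact div_self hpos.ne'

lemma av_mono [Nonempty A] {F G : (ι → A) → ℝ} (h : ∀ g, F g ≤ G g) : av F ≤ av G := by
  have hpos : (0:ℝ) < Fintype.card (ι → A) := card_pos'
  unfold av
  gcongr with g _
  exact h g

lemma av_prod [Nonempty A] {β : Type*} [DecidableEq β] (B : Finset β) (S : β → Finset ι)
    (hS : ∀ b ∈ B, ∀ b' ∈ B, b ≠ b' → Disjoint (S b) (S b'))
    (F : β → (ι → A) → ℝ)
    (hF : ∀ b ∈ B, ∀ g g' : ι → A, (∀ i ∈ S b, g i = g' i) → F b g = F b g') :
    av (fun g => ∏ b ∈ B, F b g) = ∏ b ∈ B, av (F b) := by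
  induction B using Finset.induction_on with
  | empty => simp [av_one]
  | insert b B hb ih =>
    rw [Finset.prod_insert hb]
    have h1 : (fun g => ∏ b ∈ insert b B, F b g) = fun g => F b g * ∏ b ∈ B, F b g := by
      funext g
      rw [Finset.prod_insert hb]
    rw [h1, av_mul (S b) (F b) (fun g => ∏ b ∈ B, F b g) (hF b (mem_insert_self _ _)), ih]
    · intro b1 h1 b2 h2
      exact hS b1 (mem_insert_of_mem h1) b2 (mem_insert_of_mem h2)
    · intro b1 h1
      exact hF b1 (mem_insert_of_mem h1)
    · intro g g' hg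
      refine Finset.prod_congr rfl fun b' hb' => ?_
      refine hF b' (mem_insert_of_mem hb') g g' fun i hi => hg i fun hi' => ?_
      have hne : b ≠ b' := fun h => hb (h ▸ hb')
      exact (Finset.disjoint_left.mp
        (hS b (mem_insert_self _ _) b' (mem_insert_of_mem hb') hne) hi') hi

/-- The Chernoff type bound used in the union bound. -/
lemma chernoff [Nonempty A] {β : Type*} [DecidableEq β] (B : Finset β) (S : β → Finset ι)
    (hS : ∀ b ∈ B, ∀ b' ∈ B, b ≠ b' → Disjoint (S b) (S b'))
    (good : β → (ι → A) → Prop) [∀ b g, Decidable (good b g)]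
    (hgood : ∀ b ∈ B, ∀ g g' : ι → A, (∀ i ∈ S b, g i = g' i) → (good b g ↔ good b g'))
    (hpr : ∀ b ∈ B, 1 / 32 ≤ av (fun g => if good b g then (1:ℝ) else 0)) :
    av (fun g => if 128 * (B.filter (fun b => good b g)).card ≤ B.card then (1:ℝ) else 0)
      ≤ (126 / 127) ^ B.card := by
  set θ : ℝ := (127 / 128) ^ 128 with hθ
  have hθ0 : 0 < θ := by positivity
  have hθ1 : θ ≤ 1 / 2 := by
    rw [hθ]
    have h := one_add_mul_le_pow (a := (1 / 127 : ℝ)) (by norm_num) 128
    have h2 : (2:ℝ) ≤ (128 / 127) ^ 128 := by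
      calc (2:ℝ) ≤ 1 + (128:ℕ) * (1 / 127) := by norm_num
        _ ≤ (1 + 1 / 127) ^ 128 := h
        _ = (128 / 127) ^ 128 := by norm_num
    have h3 : ((127:ℝ) / 128) ^ 128 * (128 / 127) ^ 128 = 1 := by
      rw [← mul_pow]; norm_num
    have h4 : (0:ℝ) < (127 / 128) ^ 128 := by positivity
    nlinarith
  set F : β → (ι → A) → ℝ := fun b g => if good b g then θ else 1 with hFdef
  have hF1 : ∀ b ∈ B, av (F b) ≤ 63 / 64 := by
    intro b hb
    have h1 : av (F b) = 1 - (1 - θ) * av (fun g => if good b g then (1:ℝ) else 0) := by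
      have hpos : (0:ℝ) < Fintype.card (ι → A) := card_pos'
      have h2 : ∀ g, F b g = 1 - (1 - θ) * (if good b g then (1:ℝ) else 0) := by
        intro g
        by_cases h : good b g <;> simp [hFdef, h]
      unfold av
      simp_rw [h2]
      rw [Finset.sum_sub_distrib, ← Finset.mul_sum]
      simp only [Finset.sum_const, Finset.card_univ, nsmul_eq_mul, mul_one]
      field_simp
    rw [h1]
    have h2 := hpr b hb
    nlinarith
  have hF0 : ∀ b g, 0 ≤ F b g := by
    intro b g
    by_cases h : good b g <;> simp [hFdef, h, hθ0.le]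
  have hprod : av (fun g => ∏ b ∈ B, F b g) ≤ (63 / 64) ^ B.card := by
    rw [av_prod B S hS F]
    · calc ∏ b ∈ B, av (F b) ≤ ∏ _b ∈ B, (63 / 64 : ℝ) := by
            refine Finset.prod_le_prod (fun b _ => ?_) hF1
            have hpos : (0:ℝ) < Fintype.card (ι → A) := card_pos'
            exact div_nonneg (Finset.sum_nonneg fun g _ => hF0 b g) hpos.le
        _ = _ := by rw [Finset.prod_const]
    · intro b hb g g' h
      have := hgood b hb g g' h
      by_cases h1 : good b g
      · simp [hFdef, h1, this.mp h1]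
      · have h2 : ¬ good b g' := fun h3 => h1 (this.mpr h3)
        simp [hFdef, h1, h2]
  have hpt : ∀ g, (if 128 * (B.filter (fun b => good b g)).card ≤ B.card then (1:ℝ) else 0)
      * (127 / 128) ^ B.card ≤ ∏ b ∈ B, F b g := by
    intro g
    have h1 : ∏ b ∈ B, F b g = θ ^ (B.filter (fun b => good b g)).card := by
      rw [hFdef]
      simp only
      rw [Finset.prod_ite]
      simp
    split_ifs with h
    · rw [h1, one_mul, hθ, ← pow_mul]
      exact pow_le_pow_of_le_one (by norm_num) (by norm_num) h
    · rw [zero_mul]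
      exact Finset.prod_nonneg fun b _ => hF0 b g
  have h5 : av (fun g => (if 128 * (B.filter (fun b => good b g)).card ≤ B.card then (1:ℝ) else 0))
      * (127 / 128) ^ B.card ≤ (63 / 64) ^ B.card := by
    refine le_trans ?_ hprod
    have h6 : av (fun g => (if 128 * (B.filter (fun b => good b g)).card ≤ B.card
        then (1:ℝ) else 0)) * (127 / 128) ^ B.card
        = av (fun g => (if 128 * (B.filter (fun b => good b g)).card ≤ B.card
        then (1:ℝ) else 0) * (127 / 128) ^ B.card) := by
      unfold av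
      rw [← Finset.sum_mul]
      ring
    rw [h6]
    exact av_mono hpt
  have h7 : ((126:ℝ) / 127) ^ B.card * (127 / 128) ^ B.card = (63 / 64) ^ B.card := by
    rw [← mul_pow]; norm_num
  have h8 : (0:ℝ) < (127 / 128) ^ B.card := by positivity
  rw [← h7] at h5
  exact le_of_mul_le_mul_right h5 h8

/-- Probability of exactly one marked coordinate in `S`, lying in `M`. -/
lemma av_good [Nonempty A] (S M : Finset ι) (hMS : M ⊆ S) (E : Finset A)
    (good : (ι → A) → Prop) [∀ g, Decidable (good g)]
    (hgood : ∀ g, good g ↔ ∃ p ∈ M, g p ∈ E ∧ ∀ q ∈ S, q ≠ p → g q ∉ E) :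
    (M.card : ℝ) * ((E.card : ℝ) / Fintype.card A)
        * (1 - (E.card : ℝ) / Fintype.card A) ^ (S.card - 1)
      ≤ av (fun g => if good g then (1:ℝ) else 0) := by
  classical
  have hk : (0:ℝ) < Fintype.card A := by exact_mod_cast Fintype.card_pos
  have hpos : (0:ℝ) < Fintype.card (ι → A) := card_pos'
  set T : ι → ι → Finset A := fun p q => if q = p then E else if q ∈ S then Eᶜ else univ with hT
  have hdisj : (M : Set ι).PairwiseDisjoint (fun p => Fintype.piFinset (T p)) := by
    intro p hp p' hp' hne
    rw [Function.onFun, Finset.disjoint_left]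
    intro g hg hg'
    rw [Fintype.mem_piFinset] at hg hg'
    have h1 := hg p
    have h2 := hg' p
    simp only [hT] at h1 h2
    rw [if_pos trivial] at h1
    rw [if_neg hne, if_pos (hMS hp)] at h2
    exact (Finset.mem_compl.mp h2) h1
  have hsub : M.biUnion (fun p => Fintype.piFinset (T p)) ⊆ univ.filter good := by
    intro g hg
    rw [Finset.mem_biUnion] at hg
    obtain ⟨p, hp, hg⟩ := hg
    rw [Fintype.mem_piFinset] at hg
    rw [Finset.mem_filter]
    refine ⟨mem_univ _, (hgood g).mpr ⟨p, hp, ?_, ?_⟩⟩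
    · have := hg p
      simpa [hT] using this
    · intro q hq hne
      have := hg q
      simp only [hT] at this
      rw [if_neg hne, if_pos hq] at this
      exact Finset.mem_compl.mp this
  have hcard : ∑ g, (if good g then (1:ℝ) else 0) = ((univ.filter good).card : ℝ) := by
    rw [Finset.sum_boole]
  have h1 : (∑ p ∈ M, ((Fintype.piFinset (T p)).card : ℝ)) ≤ ((univ.filter good).card : ℝ) := by
    rw [← Nat.cast_sum, ← Finset.card_biUnion hdisj]
    exact_mod_cast Finset.card_le_card hsub
  have hone : ∀ p ∈ M, ((Fintype.piFinset (T p)).card : ℝ) / Fintype.card (ι → A)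
      = ((E.card : ℝ) / Fintype.card A) * (1 - (E.card : ℝ) / Fintype.card A) ^ (S.card - 1) := by
    intro p hp
    rw [Fintype.card_piFinset, Fintype.card_fun, Nat.cast_prod, Nat.cast_pow,
      ← Finset.card_univ (α := ι), ← Finset.prod_const, ← Finset.prod_div_distrib]
    have h2 : ∀ q, ((T p q).card : ℝ) / Fintype.card A
        = if q ∈ S then (if q = p then (E.card : ℝ) / Fintype.card A
          else 1 - (E.card : ℝ) / Fintype.card A) else 1 := by
      intro q
      simp only [hT]
      by_cases hqp : q = p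
      · subst hqp
        rw [if_pos rfl, if_pos (hMS hp), if_pos rfl]
      · by_cases hqS : q ∈ S
        · rw [if_neg hqp, if_pos hqS, if_pos hqS, if_neg hqp, Finset.card_compl,
            Nat.cast_sub (Finset.card_le_univ E), sub_div, div_self hk.ne']
        · rw [if_neg hqp, if_neg hqS, if_neg hqS, Finset.card_univ, div_self hk.ne']
    rw [Finset.prod_congr rfl (fun q _ => h2 q)]
    rw [Finset.prod_ite_mem, Finset.univ_inter]
    rw [← Finset.mul_prod_erase S _ (hMS hp), if_pos rfl]
    congr 1
    rw [← Finset.card_erase_of_mem (hMS hp), ← Finset.prod_const]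
    refine Finset.prod_congr rfl fun q hq => ?_
    rw [if_neg (Finset.ne_of_mem_erase hq)]
  unfold av
  rw [hcard]
  calc (M.card : ℝ) * ((E.card : ℝ) / Fintype.card A)
        * (1 - (E.card : ℝ) / Fintype.card A) ^ (S.card - 1)
      = ∑ p ∈ M, ((Fintype.piFinset (T p)).card : ℝ) / Fintype.card (ι → A) := by
        rw [Finset.sum_congr rfl hone, Finset.sum_const, nsmul_eq_mul]; ring
    _ = (∑ p ∈ M, ((Fintype.piFinset (T p)).card : ℝ)) / Fintype.card (ι → A) := by
        rw [Finset.sum_div]
    _ ≤ _ := by gcongr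

end Prob

end Pool.Agent.Univ637
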