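import Mathlib
import Pool.Agent.Univ637.Prob

/-! # The hierarchical words -/

set_option autoImplicit false

namespace Pool.Agent.Univ637

open Finset

/-- The largest power of two dividing `i`. -/
def gap (i : ℕ) : ℕ := 2 ^ padicValNat 2 i

lemma gap_le {i : ℕ} (hi : 0 < i) : gap i ≤ i := Nat.le_of_dvd hi pow_padicValNat_dvd

lemma gap_pos (i : ℕ) : 0 < gap i := by unfold gap; positivity

lemma gap_two_mul {i : ℕ} (hi : 0 < i) : gap (2 * i) = 2 * gap i := by
  unfold gap
  rw [padicValNat.mul (by norm_num) hi.ne', padicValNat.self (by norm_num), pow_add, pow_one]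

lemma gap_odd (i : ℕ) : gap (2 * i + 1) = 1 := by
  unfold gap
  rw [padicValNat.eq_zero_of_not_dvd (by omega), pow_zero]

lemma gap_two_pow (t : ℕ) : gap (2 ^ t) = 2 ^ t := by
  unfold gap
  rw [padicValNat.prime_pow]

lemma gap_add (t : ℕ) : ∀ c i : ℕ, 0 < i → i < 2 ^ t → gap (c * 2 ^ t + i) = gap i := by
  induction t with
  | zero => intro c i h0 h; simp at h; omega
  | succ t ih =>
    intro c i h0 h
    rcases Nat.even_or_odd' i with ⟨j, hj | hj⟩
    · have h1 : c * 2 ^ (t + 1) + i = 2 * (c * 2 ^ t + j) := by rw [hj, pow_succ]; ring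
      have h2 : 0 < j := by omega
      have h3 : j < 2 ^ t := by rw [pow_succ] at h; omega
      rw [h1, gap_two_mul (by omega), hj, gap_two_mul h2, ih c j h2 h3]
    · have h1 : c * 2 ^ (t + 1) + i = 2 * (c * 2 ^ t + j) + 1 := by rw [hj, pow_succ]; ring
      rw [h1, gap_odd, hj, gap_odd]

/-- The sum of the gaps in `(0, 2 ^ t)`. -/
lemma sum_gap (t : ℕ) : 2 * ∑ i ∈ Ioo 0 (2 ^ t), gap i = t * 2 ^ t := by
  induction t with
  | zero =>
    rw [Finset.sum_eq_zero, mul_zero, zero_mul]
    intro i hi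
    rw [mem_Ioo, pow_zero] at hi
    omega
  | succ t ih =>
    have hp : 0 < 2 ^ t := by positivity
    have h1 : Ioo 0 (2 ^ (t + 1)) = Ioo 0 (2 ^ t) ∪ ({2 ^ t} ∪ Ioo (2 ^ t) (2 ^ (t + 1))) := by
      ext i
      simp only [mem_Ioo, mem_union, mem_singleton, pow_succ]
      omega
    have h2 : ∑ i ∈ Ioo (2 ^ t) (2 ^ (t + 1)), gap i = ∑ i ∈ Ioo 0 (2 ^ t), gap i := by
      symm
      refine Finset.sum_bij (fun i _ => 2 ^ t + i) ?_ ?_ ?_ ?_
      · intro i hi
        simp only [mem_Ioo, pow_succ] at hi ⊢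
        omega
      · intro a _ b _ h
        simpa using h
      · intro b hb
        simp only [mem_Ioo, pow_succ] at hb
        exact ⟨b - 2 ^ t, by simp only [mem_Ioo]; omega, by omega⟩
      · intro i hi
        rw [mem_Ioo] at hi
        have := gap_add t 1 i hi.1 hi.2
        rw [one_mul] at this
        exact this.symm
    rw [h1, Finset.sum_union, Finset.sum_union, Finset.sum_singleton, h2, gap_two_pow]
    · rw [pow_succ]
      nlinarith [ih]
    · rw [Finset.disjoint_singleton_left]; simp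
    · rw [Finset.disjoint_left]
      intro i hi hi'
      simp only [mem_Ioo, mem_union, mem_singleton] at hi hi'
      omega

lemma sum_gap_block (t c : ℕ) (s : Finset ℕ) (hs : s ⊆ Ioo 0 (2 ^ t)) :
    ∑ i ∈ s.image (fun i => c * 2 ^ t + i), gap i = ∑ i ∈ s, gap i := by
  rw [Finset.sum_image]
  · refine Finset.sum_congr rfl fun i hi => ?_
    have := mem_Ioo.mp (hs hi)
    exact gap_add t c i this.1 this.2
  · intro a _ b _ h
    simpa using h

/-- Positions of the block `c` at level `t`. -/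
def blockS (t c : ℕ) : Finset (Σ _ : ℕ, ℕ) :=
  ((Ioo 0 (2 ^ t)).image (fun i => c * 2 ^ t + i)).sigma (fun i => range (gap i))

/-- Positions of the middle part of the block `c` at level `t`. -/
def blockM (t c : ℕ) : Finset (Σ _ : ℕ, ℕ) :=
  ((Icc (2 ^ (t - 2)) (2 ^ t - 2 ^ (t - 2))).image (fun i => c * 2 ^ t + i)).sigma
    (fun i => range (gap i))

lemma kappa_le {t : ℕ} (ht : 1 ≤ t) : 2 * 2 ^ (t - 2) ≤ 2 ^ t := by
  rcases Nat.lt_or_ge t 2 with h | h
  · have : t = 1 := by omega
    subst this; norm_num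
  · obtain ⟨u, rfl⟩ := Nat.exists_eq_add_of_le h
    have : 2 + u - 2 = u := by omega
    rw [this, pow_add]; omega

lemma kappa_ge (t : ℕ) : 2 ^ t ≤ 4 * 2 ^ (t - 2) := by
  rcases Nat.lt_or_ge t 2 with h | h
  · interval_cases t <;> norm_num
  · obtain ⟨u, rfl⟩ := Nat.exists_eq_add_of_le h
    have : 2 + u - 2 = u := by omega
    rw [this, pow_add]; omega

lemma mid_sub {t : ℕ} (ht : 1 ≤ t) :
    Icc (2 ^ (t - 2)) (2 ^ t - 2 ^ (t - 2)) ⊆ Ioo 0 (2 ^ t) := by
  intro i hi
  rw [mem_Icc] at hi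
  rw [mem_Ioo]
  have h1 : 0 < 2 ^ (t - 2) := by positivity
  have h2 := kappa_le ht
  omega

lemma blockM_sub {t : ℕ} (ht : 1 ≤ t) (c : ℕ) : blockM t c ⊆ blockS t c :=
  Finset.sigma_mono (Finset.image_subset_image (mid_sub ht)) (fun _ => Finset.Subset.refl _)

lemma card_blockS (t c : ℕ) : 2 * (blockS t c).card = t * 2 ^ t := by
  unfold blockS
  rw [Finset.card_sigma]
  simp only [card_range]
  rw [sum_gap_block t c _ (Finset.Subset.refl _), sum_gap]

lemma card_blockM {t : ℕ} (ht : 1 ≤ t) (c : ℕ) : t * 2 ^ t ≤ 4 * (blockM t c).card := by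
  unfold blockM
  rw [Finset.card_sigma]
  simp only [card_range]
  rw [sum_gap_block t c _ (mid_sub ht)]
  rcases Nat.lt_or_ge t 2 with h | h
  · have : t = 1 := by omega
    subst this
    simp [gap]
  · obtain ⟨u, rfl⟩ := Nat.exists_eq_add_of_le h
    have h2 : 2 + u - 2 = u := by omega
    have hp : 0 < 2 ^ u := by positivity
    rw [h2]
    have hS := sum_gap (2 + u)
    have hu := sum_gap u
    have h4 : 2 ^ (2 + u) = 4 * 2 ^ u := by rw [pow_add]; norm_num
    have hsplit : Ioo 0 (2 ^ (2 + u)) = (Ioo 0 (2 ^ u) ∪ Ioo (3 * 2 ^ u) (4 * 2 ^ u)) ∪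
        Icc (2 ^ u) (2 ^ (2 + u) - 2 ^ u) := by
      ext i
      simp only [mem_Ioo, mem_union, mem_Icc, h4]
      omega
    have h3 : ∑ i ∈ Ioo (3 * 2 ^ u) (4 * 2 ^ u), gap i = ∑ i ∈ Ioo 0 (2 ^ u), gap i := by
      symm
      refine Finset.sum_bij (fun i _ => 3 * 2 ^ u + i) ?_ ?_ ?_ ?_
      · intro i hi
        simp only [mem_Ioo] at hi ⊢
        omega
      · intro a _ b _ h
        simpa using h
      · intro b hb
        simp only [mem_Ioo] at hb
        exact ⟨b - 3 * 2 ^ u, by simp only [mem_Ioo]; omega, by omega⟩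
      · intro i hi
        rw [mem_Ioo] at hi
        exact (gap_add u 3 i hi.1 hi.2).symm
    rw [hsplit, Finset.sum_union, Finset.sum_union, h3] at hS
    · rw [h4] at hS ⊢
      nlinarith [hS, hu]
    · rw [Finset.disjoint_left]
      intro i hi hi'
      simp only [mem_Ioo] at hi hi'
      omega
    · rw [Finset.disjoint_left]
      intro i hi hi'
      simp only [mem_Ioo, mem_union, mem_Icc, h4] at hi hi'
      omega

lemma mem_blockS {t c : ℕ} {p : Σ _ : ℕ, ℕ} :
    p ∈ blockS t c ↔ c * 2 ^ t < p.1 ∧ p.1 < (c + 1) * 2 ^ t ∧ p.2 < gap p.1 := by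
  unfold blockS
  rw [Finset.mem_sigma, Finset.mem_image, mem_range]
  constructor
  · rintro ⟨⟨i, hi, hi'⟩, h⟩
    rw [mem_Ioo] at hi
    rw [add_mul]
    refine ⟨by omega, by omega, h⟩
  · rintro ⟨h1, h2, h3⟩
    rw [add_mul] at h2
    exact ⟨⟨p.1 - c * 2 ^ t, by rw [mem_Ioo]; omega, by omega⟩, h3⟩

lemma mem_blockM {t c : ℕ} {p : Σ _ : ℕ, ℕ} :
    p ∈ blockM t c ↔ c * 2 ^ t + 2 ^ (t - 2) ≤ p.1 ∧ p.1 ≤ c * 2 ^ t + (2 ^ t - 2 ^ (t - 2)) ∧
      p.2 < gap p.1 := by
  unfold blockM
  rw [Finset.mem_sigma, Finset.mem_image, mem_range]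
  constructor
  · rintro ⟨⟨i, hi, hi'⟩, h⟩
    rw [mem_Icc] at hi
    refine ⟨by omega, by omega, h⟩
  · rintro ⟨h1, h2, h3⟩
    generalize 2 ^ (t - 2) = κ at h1 h2 ⊢
    generalize 2 ^ t - κ = d at h2 ⊢
    generalize c * 2 ^ t = e at h1 h2 ⊢
    exact ⟨⟨p.1 - e, by rw [mem_Icc]; omega, by omega⟩, h3⟩

lemma blockS_disjoint (t : ℕ) {c c' : ℕ} (h : c ≠ c') : Disjoint (blockS t c) (blockS t c') := by
  rw [Finset.disjoint_left]
  intro p hp hp'
  rw [mem_blockS] at hp hp'
  rcases Nat.lt_or_gt_of_ne h with h1 | h1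
  · have : (c + 1) * 2 ^ t ≤ c' * 2 ^ t := Nat.mul_le_mul_right _ h1
    omega
  · have : (c' + 1) * 2 ^ t ≤ c * 2 ^ t := Nat.mul_le_mul_right _ h1
    omega

/-! ### Words -/

/-- The positions strictly after leaf `a` and up to leaf `b`. -/
def posList (a b : ℕ) : List (Σ _ : ℕ, ℕ) :=
  (List.range' (a + 1) (b - a)).flatMap (fun i => (List.range (gap i)).map (fun r => ⟨i, r⟩))

lemma posList_append {a b c : ℕ} (hab : a ≤ b) (hbc : b ≤ c) :
    posList a b ++ posList b c = posList a c := by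
  unfold posList
  rw [← List.flatMap_append]
  congr 1
  have h1 : b + 1 = a + 1 + 1 * (b - a) := by omega
  have h2 : c - a = (b - a) + (c - b) := by omega
  rw [h1, h2, List.range'_append]

lemma mem_posList {a b : ℕ} {p : Σ _ : ℕ, ℕ} :
    p ∈ posList a b ↔ a < p.1 ∧ p.1 ≤ b ∧ p.2 < gap p.1 := by
  unfold posList
  rw [List.mem_flatMap]
  constructor
  · rintro ⟨i, hi, hp⟩
    rw [List.mem_map] at hp
    obtain ⟨r, hr, rfl⟩ := hp
    rw [List.mem_range'_1] at hi
    rw [List.mem_range] at hr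
    exact ⟨by simp only; omega, by simp only; omega, hr⟩
  · rintro ⟨h1, h2, h3⟩
    refine ⟨p.1, ?_, ?_⟩
    · rw [List.mem_range'_1]; omega
    · rw [List.mem_map]
      exact ⟨p.2, List.mem_range.mpr h3, rfl⟩

lemma posList_nodup (a b : ℕ) : (posList a b).Nodup := by
  unfold posList
  rw [List.nodup_flatMap]
  refine ⟨fun i _ => ?_, ?_⟩
  · refine List.Nodup.map ?_ List.nodup_range
    intro r r' h
    simpa using h
  · refine List.Pairwise.imp_of_mem ?_ (List.nodup_range' (step := 1))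
    intro i j _ _ hij
    simp only [Function.onFun, List.disjoint_left, List.mem_map]
    rintro p ⟨r, _, rfl⟩ ⟨r', _, h⟩
    have := congrArg Sigma.fst h
    exact hij this.symm

lemma posList_length (a b : ℕ) (hab : a ≤ b) :
    (posList a b).length = ∑ i ∈ Ioc a b, gap i := by
  unfold posList
  rw [List.length_flatMap]
  simp only [List.length_map, List.length_range]
  induction b, hab using Nat.le_induction with
  | base => simp
  | succ b hb ih =>
    have h1 : b + 1 - a = (b - a) + 1 := by omega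
    rw [h1, List.range'_concat, List.map_append, List.sum_append, ih]
    have h2 : Ioc a (b + 1) = insert (b + 1) (Ioc a b) := by
      ext i
      simp only [mem_Ioc, mem_insert]
      omega
    rw [h2, Finset.sum_insert (by simp)]
    simp only [List.map_cons, List.map_nil, List.sum_cons, List.sum_nil]
    have h3 : a + 1 + 1 * (b - a) = b + 1 := by omega
    rw [h3]
    ring

variable {k : ℕ}

/-- The product of the letters at the positions of `posList a b`. -/
def seg (L : (Σ _ : ℕ, ℕ) → Fin k) (a b : ℕ) : FreeGroup (Fin k) :=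
  ((posList a b).map (fun p => FreeGroup.of (L p))).prod

lemma seg_mul (L : (Σ _ : ℕ, ℕ) → Fin k) {a b c : ℕ} (hab : a ≤ b) (hbc : b ≤ c) :
    seg L a b * seg L b c = seg L a c := by
  unfold seg
  rw [← posList_append hab hbc, List.map_append, List.prod_append]

lemma norm_prod_le (l : List (Fin k)) :
    (l.map (fun x => FreeGroup.of x)).prod.norm ≤ l.length := by
  induction l with
  | nil => simp
  | cons x l ih =>
    rw [List.map_cons, List.prod_cons, List.length_cons]
    refine (FreeGroup.norm_mul_le _ _).trans ?_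
    rw [FreeGroup.norm_of]
    omega

lemma norm_seg_le (L : (Σ _ : ℕ, ℕ) → Fin k) (a b : ℕ) :
    (seg L a b).norm ≤ (posList a b).length := by
  unfold seg
  have := norm_prod_le ((posList a b).map L)
  rw [List.map_map, List.length_map] at this
  exact this

lemma prod_not_mem {G : Type*} [Group G] (H : Subgroup G) {P : Type*} (f : P → G) (l : List P)
    (hl : l.Nodup) (p : P) (hp : p ∈ l) (hfp : f p ∉ H) (hq : ∀ q ∈ l, q ≠ p → f q ∈ H) :
    (l.map f).prod ∉ H := by
  obtain ⟨s, t, rfl⟩ := List.append_of_mem hp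
  have h1 : ∀ q ∈ s, q ≠ p := by
    intro q hqs hqp
    rw [List.nodup_append] at hl
    exact hl.2.2 q hqs p (by simp) hqp
  have h2 : ∀ q ∈ t, q ≠ p := by
    intro q hqt hqp
    rw [List.nodup_append] at hl
    have := hl.2.1
    rw [List.nodup_cons] at this
    exact this.1 (hqp ▸ hqt)
  rw [List.map_append, List.map_cons, List.prod_append, List.prod_cons]
  have hs : (s.map f).prod ∈ H := by
    refine list_prod_mem ?_
    intro x hx
    rw [List.mem_map] at hx
    obtain ⟨q, hq', rfl⟩ := hx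
    exact hq q (by simp [hq']) (h1 q hq')
  have ht : (t.map f).prod ∈ H := by
    refine list_prod_mem ?_
    intro x hx
    rw [List.mem_map] at hx
    obtain ⟨q, hq', rfl⟩ := hx
    exact hq q (by simp [hq']) (h2 q hq')
  intro h
  rw [H.mul_mem_cancel_left hs, H.mul_mem_cancel_right ht] at h
  exact hfp h

end Pool.Agent.Univ637
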