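import Mathlib
import Pool.Agent.Univ637.Words

/-! # Existence of the code -/

set_option autoImplicit false

namespace Pool.Agent.Univ637

open Finset

/-- All positions. -/
def allPos (n : ℕ) : Finset (Σ _ : ℕ, ℕ) := (range n).sigma (fun i => range (gap i))

/-- The letters given by a point of the sample space. -/
def letter {k : ℕ} (hk : 0 < k) (n : ℕ) (g : {p // p ∈ allPos n} → Fin k)
    (p : Σ _ : ℕ, ℕ) : Fin k := if h : p ∈ allPos n then g ⟨p, h⟩ else ⟨0, hk⟩

/-- The block `c` at level `t` is good. -/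
def Good {k : ℕ} (hk : 0 < k) (n t c : ℕ) (E : Finset (Fin k))
    (g : {p // p ∈ allPos n} → Fin k) : Prop :=
  ∃ p ∈ blockM t c, letter hk n g p ∈ E ∧ ∀ q ∈ blockS t c, q ≠ p → letter hk n g q ∉ E

lemma blockS_sub {n t c : ℕ} (h : (c + 1) * 2 ^ t ≤ n) : blockS t c ⊆ allPos n := by
  intro p hp
  rw [mem_blockS] at hp
  unfold allPos
  rw [Finset.mem_sigma, mem_range, mem_range]
  exact ⟨by omega, hp.2.2⟩

lemma good_iff {k : ℕ} (hk : 0 < k) {n t c : ℕ} (ht : 1 ≤ t) (hc : (c + 1) * 2 ^ t ≤ n)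
    (E : Finset (Fin k)) (g : {p // p ∈ allPos n} → Fin k) :
    Good hk n t c E g ↔ ∃ p ∈ (blockM t c).subtype (· ∈ allPos n), g p ∈ E ∧
      ∀ q ∈ (blockS t c).subtype (· ∈ allPos n), q ≠ p → g q ∉ E := by
  have hS := blockS_sub hc
  have hM := (blockM_sub ht c).trans hS
  constructor
  · rintro ⟨p, hp, hpE, hq⟩
    refine ⟨⟨p, hM hp⟩, by simpa using hp, ?_, ?_⟩
    · have : letter hk n g p = g ⟨p, hM hp⟩ := by simp [letter, hM hp]
      rwa [this] at hpE
    · rintro ⟨q, hqP⟩ hqS hne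
      rw [Finset.mem_subtype] at hqS
      have := hq q hqS (fun h => hne (Subtype.ext h))
      have h2 : letter hk n g q = g ⟨q, hqP⟩ := by simp [letter, hqP]
      rwa [h2] at this
  · rintro ⟨⟨p, hpP⟩, hp, hpE, hq⟩
    rw [Finset.mem_subtype] at hp
    refine ⟨p, hp, ?_, ?_⟩
    · have : letter hk n g p = g ⟨p, hpP⟩ := by simp [letter, hpP]
      rwa [this]
    · intro q hqS hne
      have h2 : letter hk n g q = g ⟨q, hS hqS⟩ := by simp [letter, hS hqS]
      rw [h2]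
      exact hq ⟨q, hS hqS⟩ (by simpa using hqS) (fun h => hne (congrArg Subtype.val h))

lemma num_aux {a b : ℝ} (h1 : 1 / 16 ≤ a) (h2 : 1 / 2 ≤ b) : 1 / 32 ≤ a * b := by nlinarith

lemma num_aux2 {k s m t T : ℝ} (hk : 0 < k) (hs : 0 < s) (h3 : k ≤ s * (t + 1) * (T * 2))
    (h4 : t * T ≤ 4 * m) (h5 : 1 ≤ t) (hT : 0 < T) : 1 / 16 ≤ m * (s / k) := by
  rw [mul_div_assoc', le_div_iff₀ hk]
  have h8 : (t + 1) * T ≤ 2 * (t * T) := by nlinarith
  have h9 : (t + 1) * T ≤ 8 * m := by linarith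
  have h10 : k ≤ 16 * (m * s) := by
    calc k ≤ 2 * s * ((t + 1) * T) := by linarith
      _ ≤ 2 * s * (8 * m) := mul_le_mul_of_nonneg_left h9 (by linarith)
      _ = 16 * (m * s) := by ring
  linarith

lemma pr_good {k : ℕ} (hk : 0 < k) {n t c : ℕ} (ht : 1 ≤ t) (hc : (c + 1) * 2 ^ t ≤ n)
    (E : Finset (Fin k)) (h1 : t = 1 ∨ E.card * t * 2 ^ t ≤ k)
    (h2 : k < E.card * (t + 1) * 2 ^ (t + 1)) [∀ g, Decidable (Good hk n t c E g)] :
    1 / 32 ≤ av (fun g : {p // p ∈ allPos n} → Fin k =>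
      if Good hk n t c E g then (1:ℝ) else 0) := by
  have : Nonempty (Fin k) := ⟨⟨0, hk⟩⟩
  have hS := blockS_sub hc
  have hM := (blockM_sub ht c).trans hS
  set S' := (blockS t c).subtype (· ∈ allPos n) with hS'
  set M' := (blockM t c).subtype (· ∈ allPos n) with hM'
  have hcS : S'.card = (blockS t c).card := by
    rw [hS', Finset.card_subtype, Finset.filter_true_of_mem (fun x hx => hS hx)]
  have hcM : M'.card = (blockM t c).card := by
    rw [hM', Finset.card_subtype, Finset.filter_true_of_mem (fun x hx => hM hx)]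
  have hMS : M' ⊆ S' := by
    intro x hx
    rw [hM', Finset.mem_subtype] at hx
    rw [hS', Finset.mem_subtype]
    exact blockM_sub ht c hx
  refine le_trans ?_ (av_good S' M' hMS E (Good hk n t c E) (good_iff hk ht hc E))
  rw [Fintype.card_fin]
  have hkR : (0:ℝ) < k := by exact_mod_cast hk
  have hE1 : E.card ≤ k := by simpa using Finset.card_le_univ E
  have hEpos : 0 < E.card := by
    rcases Nat.eq_zero_or_pos E.card with h | h
    · rw [h] at h2; simp at h2
    · exact h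
  set ρ : ℝ := (E.card : ℝ) / k with hρ
  have hρ0 : 0 < ρ := by rw [hρ]; positivity
  have hρ1 : ρ ≤ 1 := by
    rw [hρ, div_le_one hkR]; exact_mod_cast hE1
  have hs2 := card_blockS t c
  have hm4 := card_blockM ht c
  rw [← hcS] at hs2
  rw [← hcM] at hm4
  have hb : ((S'.card - 1 : ℕ) : ℝ) * ρ ≤ 1 / 2 := by
    rcases h1 with h1 | h1
    · subst h1
      have : S'.card = 1 := by omega
      rw [this]; norm_num
    · have h3 : ((S'.card - 1 : ℕ) : ℝ) ≤ S'.card := by exact_mod_cast Nat.sub_le _ _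
      have h4 : (S'.card : ℝ) * ρ ≤ 1 / 2 := by
        rw [hρ, mul_div_assoc', div_le_iff₀ hkR]
        have h5 : 2 * (S'.card * E.card) ≤ k := by
          calc 2 * (S'.card * E.card) = (2 * S'.card) * E.card := by ring
            _ = E.card * t * 2 ^ t := by rw [hs2]; ring
            _ ≤ k := h1
        have h6 : (2:ℝ) * ((S'.card : ℝ) * E.card) ≤ k := by exact_mod_cast h5
        linarith
      exact (mul_le_mul_of_nonneg_right h3 hρ0.le).trans h4
  have hpow : (1:ℝ) / 2 ≤ (1 - ρ) ^ (S'.card - 1) := by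
    have h3 := one_add_mul_le_pow (a := -ρ) (by linarith) (S'.card - 1)
    rw [← sub_eq_add_neg] at h3
    have h4 : ((S'.card - 1 : ℕ) : ℝ) * -ρ = -(((S'.card - 1 : ℕ) : ℝ) * ρ) := by ring
    rw [h4] at h3
    linarith
  have hmρ : (1:ℝ) / 16 ≤ (M'.card : ℝ) * ρ := by
    rw [hρ]
    refine num_aux2 (t := (t:ℝ)) (T := (2:ℝ) ^ t) hkR (by exact_mod_cast hEpos) ?_ ?_ ?_ ?_
    · rw [← pow_succ]
      exact_mod_cast h2.le
    · exact_mod_cast hm4
    · exact_mod_cast ht
    · positivity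
  exact num_aux hmρ hpow

/-- The words of the code. -/
def word {k : ℕ} (hk : 0 < k) (n J : ℕ) (g : {p // p ∈ allPos n} → Fin k) (B : ℕ) :
    FreeGroup (Fin k) := seg (letter hk n g) (2 ^ J * (B / 2 ^ J)) B

lemma base_eq {J t c B : ℕ} (htJ : t ≤ J) (h1 : c * 2 ^ t ≤ B) (h2 : B < (c + 1) * 2 ^ t) :
    B / 2 ^ J = c / 2 ^ (J - t) := by
  have h3 : B / 2 ^ t = c := by
    rw [Nat.div_eq_iff (by positivity)]
    rw [add_mul] at h2
    have : 0 < 2 ^ t := by positivity
    omega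
  have h4 : 2 ^ J = 2 ^ t * 2 ^ (J - t) := by rw [← pow_add]; congr 1; omega
  rw [h4, ← Nat.div_div_eq_div_mul, h3]

open Classical in
lemma good_block {k : ℕ} (hk : 0 < k) {n J t c : ℕ} (ht : 1 ≤ t) (htJ : t ≤ J)
    (g : {p // p ∈ allPos n} → Fin k) (H : Subgroup (FreeGroup (Fin k))) (E : Finset (Fin k))
    (hE : ∀ i, i ∈ E ↔ FreeGroup.of i ∉ H) (hg : Good hk n t c E g) :
    2 ^ (t - 2) ≤ ((Ico (c * 2 ^ t) ((c + 1) * 2 ^ t)).filter
      (fun B => word hk n J g B ∉ H)).card := by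
  obtain ⟨p, hp, hpE, hq⟩ := hg
  rw [mem_blockM] at hp
  have hκ := kappa_le ht
  have hκ0 : 0 < 2 ^ (t - 2) := by positivity
  have key : ∀ a b, c * 2 ^ t ≤ a → a < c * 2 ^ t + 2 ^ (t - 2) →
      c * 2 ^ t + (2 ^ t - 2 ^ (t - 2)) ≤ b → b < (c + 1) * 2 ^ t →
      word hk n J g a ∈ H → word hk n J g b ∉ H := by
    intro a b ha1 ha2 hb1 hb2 ha hb
    have hab : a ≤ b := by omega
    have hct : (c + 1) * 2 ^ t = c * 2 ^ t + 2 ^ t := by ring
    have hbase : 2 ^ J * (a / 2 ^ J) = 2 ^ J * (b / 2 ^ J) := by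
      rw [base_eq htJ ha1 (by omega), base_eq htJ (by omega) hb2]
    have hle : 2 ^ J * (a / 2 ^ J) ≤ a := Nat.mul_div_le a (2 ^ J)
    have hmul := seg_mul (letter hk n g) hle hab
    unfold word at ha hb
    rw [← hbase, ← hmul, H.mul_mem_cancel_left ha] at hb
    refine prod_not_mem H (fun p => FreeGroup.of (letter hk n g p)) (posList a b)
      (posList_nodup a b) p ?_ ?_ ?_ hb
    · rw [mem_posList]
      exact ⟨by omega, by omega, hp.2.2⟩
    · exact (hE _).mp hpE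
    · intro q hql hne
      rw [mem_posList] at hql
      have hqS : q ∈ blockS t c := by
        rw [mem_blockS]
        exact ⟨by omega, by omega, hql.2.2⟩
      have := hq q hqS hne
      rw [hE] at this
      exact not_not.mp this
  by_cases hex : ∃ a, c * 2 ^ t ≤ a ∧ a < c * 2 ^ t + 2 ^ (t - 2) ∧ word hk n J g a ∈ H
  · obtain ⟨a, ha1, ha2, ha⟩ := hex
    have hsub : Ico (c * 2 ^ t + (2 ^ t - 2 ^ (t - 2))) ((c + 1) * 2 ^ t) ⊆
        (Ico (c * 2 ^ t) ((c + 1) * 2 ^ t)).filter (fun B => word hk n J g B ∉ H) := by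
      intro b hb
      rw [mem_Ico] at hb
      rw [mem_filter, mem_Ico]
      exact ⟨⟨by omega, hb.2⟩, key a b ha1 ha2 hb.1 hb.2 ha⟩
    have h3 := Finset.card_le_card hsub
    rw [Nat.card_Ico] at h3
    have hct : (c + 1) * 2 ^ t = c * 2 ^ t + 2 ^ t := by ring
    omega
  · push Not at hex
    have hsub : Ico (c * 2 ^ t) (c * 2 ^ t + 2 ^ (t - 2)) ⊆
        (Ico (c * 2 ^ t) ((c + 1) * 2 ^ t)).filter (fun B => word hk n J g B ∉ H) := by
      intro a ha
      rw [mem_Ico] at ha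
      rw [mem_filter, mem_Ico]
      have hct : (c + 1) * 2 ^ t = c * 2 ^ t + 2 ^ t := by ring
      exact ⟨⟨ha.1, by omega⟩, hex a ha.1 ha.2⟩
    have h3 := Finset.card_le_card hsub
    rw [Nat.card_Ico] at h3
    omega

/-! ### The level of a set -/

/-- The level used for sets of size `s`. -/
def lev (k s : ℕ) : ℕ := Nat.findGreatest (fun t => t = 1 ∨ s * t * 2 ^ t ≤ k) k

lemma lev_pos {k : ℕ} (hk : 0 < k) (s : ℕ) : 1 ≤ lev k s :=
  Nat.le_findGreatest hk (Or.inl rfl)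

lemma lev_spec {k : ℕ} (hk : 0 < k) (s : ℕ) :
    lev k s = 1 ∨ s * lev k s * 2 ^ lev k s ≤ k :=
  Nat.findGreatest_spec (P := fun t => t = 1 ∨ s * t * 2 ^ t ≤ k) hk (Or.inl rfl)

lemma lev_max {k s : ℕ} (hs : 0 < s) :
    k < s * (lev k s + 1) * 2 ^ (lev k s + 1) := by
  by_contra h
  push Not at h
  have h1 : lev k s + 1 ≤ k := by
    have h2 : 0 < 2 ^ (lev k s + 1) := by positivity
    have h3 : lev k s + 1 ≤ s * (lev k s + 1) := Nat.le_mul_of_pos_left _ hs
    have h4 : s * (lev k s + 1) ≤ s * (lev k s + 1) * 2 ^ (lev k s + 1) :=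
      Nat.le_mul_of_pos_right _ h2
    omega
  have h2 : lev k s + 1 ≤ lev k s :=
    Nat.le_findGreatest (P := fun t => t = 1 ∨ s * t * 2 ^ t ≤ k) h1 (Or.inr h)
  omega

lemma lev_le {k s : ℕ} (hk : 0 < k) (hs : 0 < s) : lev k s ≤ lev k 1 := by
  refine Nat.le_findGreatest (Nat.findGreatest_le k) ?_
  rcases lev_spec hk s with h | h
  · exact Or.inl h
  · refine Or.inr (le_trans ?_ h)
    have h2 : lev k s ≤ s * lev k s := Nat.le_mul_of_pos_left _ hs
    rw [one_mul]
    exact Nat.mul_le_mul_right _ h2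

/-! ### The union bound -/

lemma one_add_pow_le {t k m : ℕ} (ht : 1 ≤ t) (hkm : k ≤ m * 2 ^ t) :
    (1 + (1 / 4 : ℝ) ^ t) ^ k ≤ 2 ^ m := by
  have hx : (0:ℝ) < (1 / 4 : ℝ) ^ t := by positivity
  have h1 : (1 + (1 / 4 : ℝ) ^ t) ^ k ≤ (1 + (1 / 4 : ℝ) ^ t) ^ (m * 2 ^ t) :=
    pow_le_pow_right₀ (by linarith) hkm
  refine h1.trans ?_
  rw [mul_comm, pow_mul]
  refine pow_le_pow_left₀ (by positivity) ?_ m
  have h2 : (1 + (1 / 4 : ℝ) ^ t) ≤ Real.exp ((1 / 4 : ℝ) ^ t) := by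
    have := Real.add_one_le_exp ((1 / 4 : ℝ) ^ t); linarith
  have h3 : (1 + (1 / 4 : ℝ) ^ t) ^ (2 ^ t) ≤ Real.exp (1 / 2) := by
    calc (1 + (1 / 4 : ℝ) ^ t) ^ (2 ^ t) ≤ (Real.exp ((1 / 4 : ℝ) ^ t)) ^ (2 ^ t) :=
          pow_le_pow_left₀ (by positivity) h2 _
      _ = Real.exp (((2 ^ t : ℕ) : ℝ) * (1 / 4 : ℝ) ^ t) := by rw [Real.exp_nat_mul]
      _ ≤ Real.exp (1 / 2) := by
        rw [Real.exp_le_exp]
        push_cast
        rw [← mul_pow]
        calc ((2:ℝ) * (1 / 4)) ^ t = (1 / 2) ^ t := by norm_num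
          _ ≤ (1 / 2) ^ 1 := pow_le_pow_of_le_one (by norm_num) (by norm_num) ht
          _ = 1 / 2 := by norm_num
  refine h3.trans ?_
  have h4 : Real.exp (1 / 2) ^ 2 = Real.exp 1 := by
    rw [← Real.exp_nat_mul]; norm_num
  have h5 : Real.exp 1 < 2.7182818286 := Real.exp_one_lt_d9
  have h6 : 0 < Real.exp (1 / 2) := Real.exp_pos _
  nlinarith

lemma count_lev {k t m : ℕ} (hk : 0 < k) (ht : 1 ≤ t) (hkm : k ≤ m * 2 ^ t) :
    (((univ : Finset (Finset (Fin k))).filter (fun E => E.Nonempty ∧ lev k E.card = t)).card : ℝ)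
      ≤ 32 ^ m := by
  have h1 : ∀ E ∈ (univ : Finset (Finset (Fin k))).filter
      (fun E => E.Nonempty ∧ lev k E.card = t), (1:ℝ) ≤ 16 ^ m * ((1 / 4 : ℝ) ^ t) ^ E.card := by
    intro E hE
    rw [mem_filter] at hE
    obtain ⟨-, hne, hlev⟩ := hE
    have hle : t * E.card ≤ 2 * m := by
      rcases lev_spec hk E.card with h | h
      · rw [hlev] at h
        subst h
        have : E.card ≤ k := by simpa using Finset.card_le_univ E
        omega
      · rw [hlev] at h
        have h2 : 0 < 2 ^ t := by positivity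
        have h3 : (E.card * t) * 2 ^ t ≤ m * 2 ^ t := h.trans hkm
        have h4 := Nat.le_of_mul_le_mul_right h3 h2
        rw [mul_comm t]
        omega
    rw [← pow_mul]
    have h5 : ((1:ℝ) / 4) ^ (2 * m) ≤ (1 / 4 : ℝ) ^ (t * E.card) :=
      pow_le_pow_of_le_one (by norm_num) (by norm_num) hle
    calc (1:ℝ) = 16 ^ m * (1 / 4 : ℝ) ^ (2 * m) := by
          rw [pow_mul, ← mul_pow]; norm_num
      _ ≤ _ := by gcongr
  calc (((univ : Finset (Finset (Fin k))).filter
        (fun E => E.Nonempty ∧ lev k E.card = t)).card : ℝ)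
      = ∑ _E ∈ (univ : Finset (Finset (Fin k))).filter
        (fun E => E.Nonempty ∧ lev k E.card = t), (1:ℝ) := by simp
    _ ≤ ∑ E ∈ (univ : Finset (Finset (Fin k))).filter
        (fun E => E.Nonempty ∧ lev k E.card = t), 16 ^ m * ((1 / 4 : ℝ) ^ t) ^ E.card :=
        Finset.sum_le_sum h1
    _ ≤ ∑ E : Finset (Fin k), 16 ^ m * ((1 / 4 : ℝ) ^ t) ^ E.card :=
        Finset.sum_le_sum_of_subset_of_nonneg (Finset.filter_subset _ _)
          (fun _ _ _ => by positivity)
    _ = 16 ^ m * (1 + (1 / 4 : ℝ) ^ t) ^ k := by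
        rw [← Finset.mul_sum]
        congr 1
        have := Fintype.sum_pow_mul_eq_add_pow (Fin k) ((1 / 4 : ℝ) ^ t) 1
        simp only [one_pow, mul_one, Fintype.card_fin] at this
        rw [this, add_comm]
    _ ≤ 16 ^ m * 2 ^ m := by
        gcongr
        exact one_add_pow_le ht hkm
    _ = 32 ^ m := by rw [← mul_pow]; norm_num

lemma sum_half (J : ℕ) : ∑ j ∈ range J, (1 / 2 : ℝ) ^ (j + 1) < 1 := by
  have h : ∑ j ∈ range J, (1 / 2 : ℝ) ^ (j + 1) = 1 - (1 / 2) ^ J := by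
    induction J with
    | zero => simp
    | succ J ih => rw [Finset.sum_range_succ, ih]; ring
  rw [h]
  have : (0:ℝ) < (1 / 2) ^ J := by positivity
  linarith

lemma union_bound {k q : ℕ} (hk : 0 < k) (hq : k < q * 2 ^ lev k 1) :
    ∑ E ∈ (univ : Finset (Finset (Fin k))).filter (fun E => E.Nonempty),
      (1 / 256 : ℝ) ^ (q * 2 ^ (lev k 1 - lev k E.card)) < 1 := by
  set J := lev k 1 with hJ
  have hq0 : 0 < q := by
    rcases Nat.eq_zero_or_pos q with h | h
    · subst h; simp at hq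
    · exact h
  have hmaps : ∀ E ∈ (univ : Finset (Finset (Fin k))).filter (fun E => E.Nonempty),
      J - lev k E.card ∈ range J := by
    intro E hE
    rw [mem_filter] at hE
    have h1 := lev_pos hk E.card
    have h2 := lev_le hk hE.2.card_pos
    rw [mem_range]
    omega
  rw [← Finset.sum_fiberwise_of_maps_to hmaps]
  refine lt_of_le_of_lt (Finset.sum_le_sum (fun j hj => ?_)) (sum_half J)
  rw [mem_range] at hj
  set t := J - j with ht
  have ht1 : 1 ≤ t := by omega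
  set m := q * 2 ^ j with hm
  have hkm : k ≤ m * 2 ^ t := by
    have : m * 2 ^ t = q * 2 ^ J := by
      rw [hm, mul_assoc, ← pow_add]; congr 2; omega
    omega
  have hjm : j + 1 ≤ m := by
    have h1 : j < 2 ^ j := Nat.lt_two_pow_self
    have h2 : 2 ^ j ≤ q * 2 ^ j := Nat.le_mul_of_pos_left _ hq0
    omega
  have hsub : ((univ : Finset (Finset (Fin k))).filter (fun E => E.Nonempty)).filter
      (fun E => J - lev k E.card = j) ⊆ (univ : Finset (Finset (Fin k))).filter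
      (fun E => E.Nonempty ∧ lev k E.card = t) := by
    intro E hE
    simp only [mem_filter, mem_univ, true_and] at hE ⊢
    have h1 := lev_pos hk E.card
    have h2 := lev_le hk hE.1.card_pos
    exact ⟨hE.1, by omega⟩
  have hcount := count_lev hk ht1 hkm
  calc ∑ E ∈ ((univ : Finset (Finset (Fin k))).filter (fun E => E.Nonempty)).filter
        (fun E => J - lev k E.card = j), (1 / 256 : ℝ) ^ (q * 2 ^ (J - lev k E.card))
      = ∑ _E ∈ ((univ : Finset (Finset (Fin k))).filter (fun E => E.Nonempty)).filter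
        (fun E => J - lev k E.card = j), (1 / 256 : ℝ) ^ m := by
        refine Finset.sum_congr rfl fun E hE => ?_
        rw [mem_filter] at hE
        rw [hE.2]
    _ = ((((univ : Finset (Finset (Fin k))).filter (fun E => E.Nonempty)).filter
        (fun E => J - lev k E.card = j)).card : ℝ) * (1 / 256 : ℝ) ^ m := by
        rw [Finset.sum_const, nsmul_eq_mul]
    _ ≤ 32 ^ m * (1 / 256 : ℝ) ^ m := by
        gcongr
        exact le_trans (by exact_mod_cast Finset.card_le_card hsub) hcount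
    _ = (1 / 8 : ℝ) ^ m := by rw [← mul_pow]; norm_num
    _ ≤ (1 / 2 : ℝ) ^ m := pow_le_pow_left₀ (by norm_num) (by norm_num) m
    _ ≤ (1 / 2 : ℝ) ^ (j + 1) := pow_le_pow_of_le_one (by norm_num) (by norm_num) hjm

end Pool.Agent.Univ637
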