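import Mathlib
import Pool.Agent.Univ637.Core

/-! # Good universal codes of linear length -/

set_option autoImplicit false

namespace Pool.Agent.Univ637

open Finset

lemma av_sum {ι A β : Type*} [Fintype ι] [DecidableEq ι] [Fintype A] [DecidableEq A]
    (s : Finset β) (F : β → (ι → A) → ℝ) :
    av (fun g => ∑ b ∈ s, F b g) = ∑ b ∈ s, av (F b) := by
  unfold av
  rw [Finset.sum_comm, Finset.sum_div]

lemma pow_le_256 (q : ℕ) : ((126:ℝ) / 127) ^ (1016 * q) ≤ (1 / 256) ^ q := by
  rw [pow_mul]
  refine pow_le_pow_left₀ (by positivity) ?_ q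
  have h := one_add_mul_le_pow (a := (1 / 126 : ℝ)) (by norm_num) 127
  have h2 : (2:ℝ) ≤ (127 / 126) ^ 127 := by
    calc (2:ℝ) ≤ 1 + (127:ℕ) * (1 / 126) := by norm_num
      _ ≤ (1 + 1 / 126) ^ 127 := h
      _ = (127 / 126) ^ 127 := by norm_num
  have h3 : ((126:ℝ) / 127) ^ 127 * (127 / 126) ^ 127 = 1 := by
    rw [← mul_pow]; norm_num
  have h4 : (0:ℝ) < (126 / 127) ^ 127 := by positivity
  have h5 : ((126:ℝ) / 127) ^ 127 ≤ 1 / 2 := by nlinarith
  calc ((126:ℝ) / 127) ^ 1016 = ((126 / 127) ^ 127) ^ 8 := by rw [← pow_mul]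
    _ ≤ (1 / 2) ^ 8 := pow_le_pow_left₀ h4.le h5 8
    _ = 1 / 256 := by norm_num

open Classical in
/-- A sample point for which every nonempty set of letters has many good blocks. -/
lemma exists_sample {k q n : ℕ} (hk : 0 < k) (hq : k < q * 2 ^ lev k 1)
    (hn : n = 1016 * q * 2 ^ lev k 1) :
    ∃ g : {p // p ∈ allPos n} → Fin k, ∀ E : Finset (Fin k), E.Nonempty →
      1016 * (q * 2 ^ (lev k 1 - lev k E.card)) <
        128 * ((range (1016 * (q * 2 ^ (lev k 1 - lev k E.card)))).filter
          (fun c => Good hk n (lev k E.card) c E g)).card := by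
  by_contra hcon
  push Not at hcon
  have : Nonempty (Fin k) := ⟨⟨0, hk⟩⟩
  set Bad : Finset (Fin k) → ({p // p ∈ allPos n} → Fin k) → ℝ := fun E g =>
    if 128 * ((range (1016 * (q * 2 ^ (lev k 1 - lev k E.card)))).filter
          (fun c => Good hk n (lev k E.card) c E g)).card ≤
          (range (1016 * (q * 2 ^ (lev k 1 - lev k E.card)))).card then 1 else 0 with hBad
  have h1 : ∀ E ∈ (univ : Finset (Finset (Fin k))).filter (fun E => E.Nonempty),
      av (Bad E) ≤ (1 / 256 : ℝ) ^ (q * 2 ^ (lev k 1 - lev k E.card)) := by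
    intro E hE
    rw [mem_filter] at hE
    have hE := hE.2
    set t := lev k E.card with ht
    have ht1 : 1 ≤ t := lev_pos hk _
    have htJ : t ≤ lev k 1 := lev_le hk hE.card_pos
    set N := 1016 * (q * 2 ^ (lev k 1 - t)) with hN
    have hNn : N * 2 ^ t = n := by
      rw [hN, hn, mul_assoc, mul_assoc, mul_assoc, ← pow_add]
      congr 4
      omega
    have hblock : ∀ c ∈ range N, (c + 1) * 2 ^ t ≤ n := by
      intro c hc
      rw [← hNn]
      exact Nat.mul_le_mul_right _ (mem_range.mp hc)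
    have hch := chernoff (ι := {p // p ∈ allPos n}) (A := Fin k) (range N)
      (fun c => (blockS t c).subtype (· ∈ allPos n))
      (fun c _ c' _ hne => by
        rw [Finset.disjoint_left]
        intro x hx hx'
        rw [Finset.mem_subtype] at hx hx'
        exact Finset.disjoint_left.mp (blockS_disjoint t hne) hx hx')
      (fun c g => Good hk n t c E g)
      (fun c hc g g' hgg => by
        rw [good_iff hk ht1 (hblock c hc), good_iff hk ht1 (hblock c hc)]
        have hMS : ∀ p ∈ (blockM t c).subtype (· ∈ allPos n),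
            p ∈ (blockS t c).subtype (· ∈ allPos n) := by
          intro p hp
          rw [Finset.mem_subtype] at hp ⊢
          exact blockM_sub ht1 c hp
        constructor
        · rintro ⟨p, hp, hpE, hq'⟩
          refine ⟨p, hp, ?_, fun q hqS hne => ?_⟩
          · rw [← hgg p (hMS p hp)]; exact hpE
          · rw [← hgg q hqS]; exact hq' q hqS hne
        · rintro ⟨p, hp, hpE, hq'⟩
          refine ⟨p, hp, ?_, fun q hqS hne => ?_⟩
          · rw [hgg p (hMS p hp)]; exact hpE
          · rw [hgg q hqS]; exact hq' q hqS hne)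
      (fun c hc => pr_good hk ht1 (hblock c hc) E (lev_spec hk _) (lev_max hE.card_pos))
    refine hch.trans ?_
    rw [card_range, hN]
    exact pow_le_256 _
  have h2 : av (fun g => ∑ E ∈ (univ : Finset (Finset (Fin k))).filter (fun E => E.Nonempty),
      Bad E g) < 1 := by
    rw [av_sum]
    exact lt_of_le_of_lt (Finset.sum_le_sum h1) (union_bound hk hq)
  have h3 : (1:ℝ) ≤ av (fun g => ∑ E ∈ (univ : Finset (Finset (Fin k))).filter
      (fun E => E.Nonempty), Bad E g) := by
    rw [← av_one (ι := {p // p ∈ allPos n}) (A := Fin k)]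
    refine av_mono fun g => ?_
    obtain ⟨E, hE, hEb⟩ := hcon g
    have h4 : Bad E g = 1 := by
      rw [hBad]
      simp only
      rw [if_pos]
      rw [card_range]
      exact hEb
    rw [← h4]
    refine Finset.single_le_sum (f := fun E => Bad E g) (fun E _ => ?_)
      (mem_filter.mpr ⟨mem_univ _, hE⟩)
    rw [hBad]
    simp only
    split_ifs <;> norm_num
  linarith

lemma norm_word_le {k : ℕ} (hk : 0 < k) (n : ℕ) (g : {p // p ∈ allPos n} → Fin k) (B : ℕ) :
    (word hk n (lev k 1) g B).norm ≤ k := by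
  set J := lev k 1 with hJ
  have hle : 2 ^ J * (B / 2 ^ J) ≤ B := Nat.mul_div_le B (2 ^ J)
  have hlt : B < 2 ^ J * (B / 2 ^ J) + 2 ^ J := by
    have := Nat.lt_mul_div_succ B (show 0 < 2 ^ J by positivity)
    rwa [mul_add, mul_one] at this
  refine (norm_seg_le _ _ _).trans ?_
  rw [posList_length _ _ hle]
  have hsub : Ioc (2 ^ J * (B / 2 ^ J)) B ⊆
      (Ioo 0 (2 ^ J)).image (fun i => (B / 2 ^ J) * 2 ^ J + i) := by
    intro i hi
    rw [mem_Ioc] at hi
    rw [mem_image]
    rw [mul_comm (2 ^ J) (B / 2 ^ J)] at hi hlt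
    exact ⟨i - (B / 2 ^ J) * 2 ^ J, by rw [mem_Ioo]; omega, by omega⟩
  have h1 := Finset.sum_le_sum_of_subset hsub (f := gap)
  rw [sum_gap_block J _ _ (Finset.Subset.refl _)] at h1
  have h2 := sum_gap J
  have h3 := lev_spec hk 1
  rw [← hJ] at h3
  rcases h3 with h3 | h3
  · rw [h3] at h2 h1 ⊢
    omega
  · rw [one_mul] at h3
    omega

open Classical in
/-- Existence of the code, with explicit constants. -/
theorem exists_code {k : ℕ} (hk : 0 < k) :
    ∃ (n : ℕ) (w : Fin n → FreeGroup (Fin k)), 0 < n ∧ n ≤ 3048 * k ∧ (∀ i, (w i).norm ≤ k) ∧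
      ∀ H : Subgroup (FreeGroup (Fin k)), H ≠ ⊤ →
        n ≤ 512 * ((univ : Finset (Fin n)).filter (fun i => w i ∉ H)).card := by
  set J := lev k 1 with hJ
  have hJ1 : 1 ≤ J := lev_pos hk 1
  have h2J : 2 ^ J ≤ 2 * k := by
    rcases lev_spec hk 1 with h | h
    · rw [← hJ] at h; rw [h]; omega
    · rw [one_mul, ← hJ] at h
      have : 2 ^ J ≤ J * 2 ^ J := Nat.le_mul_of_pos_left _ hJ1
      omega
  have hp : 0 < 2 ^ J := by positivity
  set q := k / 2 ^ J + 1 with hqdef
  have hq : k < q * 2 ^ J := by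
    rw [hqdef, mul_comm]
    exact Nat.lt_mul_div_succ k hp
  have hq2 : q * 2 ^ J ≤ k + 2 ^ J := by
    rw [hqdef, add_mul, one_mul]
    have := Nat.div_mul_le_self k (2 ^ J)
    omega
  obtain ⟨n, hn⟩ : ∃ n, n = 1016 * q * 2 ^ J := ⟨_, rfl⟩
  obtain ⟨g, hg⟩ := exists_sample hk hq hn
  refine ⟨n, fun i => word hk n J g i, ?_, ?_, fun i => norm_word_le hk n g i, ?_⟩
  · rw [hn]; positivity
  · rw [hn, mul_assoc]; omega
  · intro H hH
    set E : Finset (Fin k) := univ.filter (fun i => FreeGroup.of i ∉ H) with hE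
    have hEmem : ∀ i, i ∈ E ↔ FreeGroup.of i ∉ H := by
      intro i; rw [hE, mem_filter]; simp
    have hEne : E.Nonempty := by
      by_contra hne
      rw [Finset.not_nonempty_iff_eq_empty] at hne
      apply hH
      rw [eq_top_iff, ← FreeGroup.closure_range_of, Subgroup.closure_le]
      rintro _ ⟨i, rfl⟩
      by_contra hi
      have : i ∈ E := (hEmem i).mpr hi
      rw [hne] at this
      simp at this
    have hgE := hg E hEne
    rw [← hJ] at hgE
    set t := lev k E.card with ht
    have ht1 : 1 ≤ t := lev_pos hk _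
    have htJ : t ≤ J := lev_le hk hEne.card_pos
    set N := 1016 * (q * 2 ^ (J - t)) with hN
    have hNn : N * 2 ^ t = n := by
      rw [hN, hn, mul_assoc, mul_assoc, mul_assoc, ← pow_add]
      congr 4
      omega
    set GB := (range N).filter (fun c => Good hk n t c E g) with hGB
    set W : ℕ → Finset ℕ := fun c =>
      (Ico (c * 2 ^ t) ((c + 1) * 2 ^ t)).filter (fun B => word hk n J g B ∉ H) with hW
    have hWcard : ∀ c ∈ GB, 2 ^ (t - 2) ≤ (W c).card := by
      intro c hc
      rw [hGB, mem_filter] at hc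
      have := good_block hk ht1 htJ g H E hEmem hc.2
      convert this
    have hWdisj : (GB : Set ℕ).PairwiseDisjoint W := by
      intro c _ c' _ hne
      rw [Function.onFun, Finset.disjoint_left]
      intro B hB hB'
      rw [hW] at hB hB'
      simp only [mem_filter, mem_Ico] at hB hB'
      rcases Nat.lt_or_gt_of_ne hne with h1 | h1
      · have : (c + 1) * 2 ^ t ≤ c' * 2 ^ t := Nat.mul_le_mul_right _ h1
        omega
      · have : (c' + 1) * 2 ^ t ≤ c * 2 ^ t := Nat.mul_le_mul_right _ h1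
        omega
    have hsub : GB.biUnion W ⊆ (range n).filter (fun B => word hk n J g B ∉ H) := by
      intro B hB
      rw [mem_biUnion] at hB
      obtain ⟨c, hc, hB⟩ := hB
      rw [hGB, mem_filter, mem_range] at hc
      rw [hW] at hB
      simp only [mem_filter, mem_Ico] at hB
      rw [mem_filter, mem_range]
      have : (c + 1) * 2 ^ t ≤ N * 2 ^ t := Nat.mul_le_mul_right _ hc.1
      exact ⟨by omega, hB.2⟩
    have h1 : GB.card * 2 ^ (t - 2) ≤ ((range n).filter (fun B => word hk n J g B ∉ H)).card := by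
      calc GB.card * 2 ^ (t - 2) = ∑ _c ∈ GB, 2 ^ (t - 2) := by rw [sum_const, smul_eq_mul]
        _ ≤ ∑ c ∈ GB, (W c).card := Finset.sum_le_sum hWcard
        _ = (GB.biUnion W).card := (Finset.card_biUnion hWdisj).symm
        _ ≤ _ := Finset.card_le_card hsub
    have h2 : ((range n).filter (fun B => word hk n J g B ∉ H)).card =
        ((univ : Finset (Fin n)).filter (fun i : Fin n => word hk n J g i ∉ H)).card := by
      symm
      refine Finset.card_bij (fun i _ => (i : ℕ)) ?_ ?_ ?_
      · intro i hi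
        rw [mem_filter] at hi ⊢
        exact ⟨mem_range.mpr i.2, hi.2⟩
      · intro a _ b _ h
        exact Fin.ext h
      · intro b hb
        rw [mem_filter, mem_range] at hb
        exact ⟨⟨b, hb.1⟩, by rw [mem_filter]; exact ⟨mem_univ _, hb.2⟩, rfl⟩
    rw [h2] at h1
    have h3 := kappa_ge t
    calc n = N * 2 ^ t := hNn.symm
      _ ≤ (128 * GB.card) * (4 * 2 ^ (t - 2)) := Nat.mul_le_mul hgE.le h3
      _ = 512 * (GB.card * 2 ^ (t - 2)) := by ring
      _ ≤ _ := Nat.mul_le_mul_left _ h1

end Pool.Agent.Univ637
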